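import Pool.Agent.Helper90.TW.OrbDefs
import Pool.Agent.SC.PlaceExt

/-!
# Project TW (MP_e66f84_ag), block ORB: general lemmas on places (OG1-OG4)
-/

set_option autoImplicit false

namespace Pool.Agent.TOW

open VC IntermediateField NumberField IsDedekindDomain Pool.Agent.SC Pool.Agent.L Pool.Agent.M

noncomputable section

section basic

variable {E U : Type} [Field E] [Field U] [Algebra E U]

/-- `Moves` for nonunits. -/
theorem moves_nonunits34 {N : IntermediateField E U} {T : U ≃+* U} {Q Q' : Place E N}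
    (hT : Moves T N Q Q') {z : U} (hz : z ∈ N) (hz' : T z ∈ N) :
    (⟨z, hz⟩ : N) ∈ Q.ring.nonunits ↔ (⟨T z, hz'⟩ : N) ∈ Q'.ring.nonunits := by
  rw [ValuationSubring.mem_nonunits_iff_or, ValuationSubring.mem_nonunits_iff_or]
  have h0 : (⟨z, hz⟩ : N) = 0 ↔ (⟨T z, hz'⟩ : N) = 0 := by
    rw [Subtype.ext_iff, Subtype.ext_iff]
    exact (map_eq_zero T).symm
  have hi : (⟨z, hz⟩ : N)⁻¹ ∈ Q.ring ↔ (⟨T z, hz'⟩ : N)⁻¹ ∈ Q'.ring := by
    have h1 := hT z⁻¹ (inv_mem hz) (by rw [map_inv₀]; exact inv_mem hz')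
    have h2 : (⟨T z⁻¹, by rw [map_inv₀]; exact inv_mem hz'⟩ : N) = (⟨T z, hz'⟩ : N)⁻¹ :=
      Subtype.ext (map_inv₀ T z)
    rw [h2] at h1
    exact h1
  rw [h0, hi]

/-- `OverPl` for nonunits. -/
theorem overPl_nonunits34 {L N : IntermediateField E U} {b : Place E L} {Q : Place E N}
    (h : OverPl b Q) {z : U} (hz : z ∈ L) (hz' : z ∈ N) :
    (⟨z, hz⟩ : L) ∈ b.ring.nonunits ↔ (⟨z, hz'⟩ : N) ∈ Q.ring.nonunits := by
  rw [ValuationSubring.mem_nonunits_iff_or, ValuationSubring.mem_nonunits_iff_or]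
  have h0 : (⟨z, hz⟩ : L) = 0 ↔ (⟨z, hz'⟩ : N) = 0 := by
    rw [Subtype.ext_iff, Subtype.ext_iff]
    rfl
  have hi : (⟨z, hz⟩ : L)⁻¹ ∈ b.ring ↔ (⟨z, hz'⟩ : N)⁻¹ ∈ Q.ring :=
    h z⁻¹ (inv_mem hz) (inv_mem hz')
  rw [h0, hi]

/-- valuation one means: in the ring and not a nonunit -/
theorem val_eq_one34 {F : Type} [Field F] (A : ValuationSubring F) (z : F) :
    A.valuation z = 1 ↔ z ∈ A ∧ z ∉ A.nonunits := by
  rw [ValuationSubring.mem_nonunits_iff, ← A.valuation_le_one_iff, not_lt]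
  exact ⟨fun h => ⟨h.le, h.ge⟩, fun h => le_antisymm h.1 h.2⟩

theorem eq_one_of_sq34 {Γ : Type} [LinearOrderedCommGroupWithZero Γ] {g : Γ} (h : g * g = 1) :
    g = 1 := by
  rcases lt_trichotomy g 1 with h1 | h1 | h1
  · exfalso
    have h2 : g * g ≤ g * 1 := mul_le_mul_right h1.le g
    rw [h, mul_one] at h2
    exact absurd h1 (not_lt.2 h2)
  · exact h1
  · exfalso
    have h2 : g * 1 ≤ g * g := mul_le_mul_right h1.le g
    rw [h, mul_one] at h2
    exact absurd h1 (not_lt.2 h2)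

theorem le_one_of_sq34 {Γ : Type} [LinearOrderedCommGroupWithZero Γ] {g : Γ} (h : g * g ≤ 1) :
    g ≤ 1 := by
  by_contra h1
  rw [not_le] at h1
  have h2 : g * 1 ≤ g * g := mul_le_mul_right h1.le g
  rw [mul_one] at h2
  exact absurd h1 (not_lt.2 (h2.trans h))

theorem ord_pow34 {k F : Type} [Field k] [IsAlgClosed k] [CharZero k] [Field F] [Algebra k F]
    (hF : IsFunctionField k F) (P : Place k F) {a : F} (ha : a ≠ 0) (n : ℕ) :
    ord P.ring (a ^ n) = n * ord P.ring a := by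
  have h := FF.ord_zpow hF P ha n
  rwa [zpow_natCast] at h

end basic

/-- **OG1.** -/
theorem oG1 : StmtOG1 := by
  intro E U _ _ _ _ _ N hN Q T hTE hT z hz hTz
  obtain ⟨hzr, hzn⟩ := (val_eq_one34 Q.ring z).1 hz
  obtain ⟨c, hc⟩ := FF.exists_residue hN Q hzr
  -- the image of `z - c`
  have h1 : T ((z - algebraMap E N c : N) : U) = -(z : U) - algebraMap E U c := by
    have : ((z - algebraMap E N c : N) : U) = (z : U) - algebraMap E U c := rfl
    rw [this, map_sub, hTz, hTE]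
  have hmem : T ((z - algebraMap E N c : N) : U) ∈ N := by
    rw [h1]
    exact sub_mem (neg_mem z.2) (N.algebraMap_mem c)
  have h2 := (moves_nonunits34 hT (z - algebraMap E N c : N).2 hmem).1 hc
  have h3 : (⟨T ((z - algebraMap E N c : N) : U), hmem⟩ : N) = -z - algebraMap E N c :=
    Subtype.ext h1
  rw [h3] at h2
  have h4 : (-z - algebraMap E N c) + (z - algebraMap E N c) ∈ Q.ring.nonunits := by
    rw [ValuationSubring.mem_nonunits_iff] at *
    exact Q.ring.valuation.map_add_lt h2 hc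
  have h5 : (-z - algebraMap E N c) + (z - algebraMap E N c) = algebraMap E N (-(2 * c)) := by
    rw [map_neg, map_mul, map_ofNat]
    ring
  rw [h5] at h4
  have h6 : -(2 * c) = 0 := by
    by_contra h
    rcases (ValuationSubring.mem_nonunits_iff_or _).1 h4 with h7 | h7
    · rw [map_eq_zero] at h7
      exact h h7
    · apply h7
      rw [← map_inv₀]
      exact Q.algebraMap_mem _
  have h7 : c = 0 := by
    have h8 : (2 : E) ≠ 0 := two_ne_zero
    rw [neg_eq_zero, mul_eq_zero] at h6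
    exact h6.resolve_left h8
  rw [h7, map_zero, sub_zero] at hc
  exact hzn hc

/-- **OG2.** -/
theorem oG2 : StmtOG2 := by
  intro E U _ _ _ _ _ L N hLN hL hN b Q hbQ T hTL hT r h hr hr0 hTr hh hdvd
  obtain ⟨m, hm⟩ := hdvd
  have hh0 : h ≠ 0 := by
    rintro rfl
    exact pow_ne_zero 2 hr0 hh.symm
  obtain ⟨π, hπ0, hπ1⟩ := FF.exists_uniformizer hL b
  set t : L := π ^ m with ht
  have ht0 : t ≠ 0 := zpow_ne_zero _ hπ0
  have hordt : ord b.ring t = m := by
    rw [ht, FF.ord_zpow hL b hπ0, hπ1, mul_one]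
  -- the unit `w = h / t ^ 2`
  have hw0 : h * (t * t)⁻¹ ≠ 0 := mul_ne_zero hh0 (inv_ne_zero (mul_ne_zero ht0 ht0))
  have hw : ord b.ring (h * (t * t)⁻¹) = 0 := by
    rw [ord_mul hL b hh0 (inv_ne_zero (mul_ne_zero ht0 ht0)), ord_inv hL b (mul_ne_zero ht0 ht0),
      ord_mul hL b ht0 ht0, hordt, hm]
    ring
  have hwr : h * (t * t)⁻¹ ∈ b.ring := (ord_nonneg_iff hL b hw0).1 hw.ge
  have hwn : h * (t * t)⁻¹ ∉ b.ring.nonunits := fun hn => by
    have := (ord_pos_iff hL b hw0).2 hn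
    omega
  have htN : (t : U) ∈ N := hLN t.2
  have hzN : r * (t : U)⁻¹ ∈ N := mul_mem hr (inv_mem htN)
  have ht0U : (t : U) ≠ 0 := fun h => ht0 (Subtype.ext h)
  have hsq : (r * (t : U)⁻¹) * (r * (t : U)⁻¹) = ((h * (t * t)⁻¹ : L) : U) := by
    have h1 : ((h * (t * t)⁻¹ : L) : U) = (h : U) * ((t : U) * (t : U))⁻¹ := rfl
    rw [h1, hh]
    field_simp
  have hsqN : (r * (t : U)⁻¹) * (r * (t : U)⁻¹) ∈ N := mul_mem hzN hzN
  have h1 : (⟨_, hsqN⟩ : N) ∈ Q.ring ∧ (⟨_, hsqN⟩ : N) ∉ Q.ring.nonunits := by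
    have hmem : ((h * (t * t)⁻¹ : L) : U) ∈ N := hLN (h * (t * t)⁻¹).2
    have e : (⟨_, hsqN⟩ : N) = ⟨_, hmem⟩ := Subtype.ext hsq
    rw [e]
    exact ⟨(hbQ _ (h * (t * t)⁻¹ : L).2 hmem).1 hwr,
      fun hn => hwn ((overPl_nonunits34 hbQ (h * (t * t)⁻¹ : L).2 hmem).2 hn)⟩
  have h2 := (val_eq_one34 Q.ring _).2 h1
  have h3 : Q.ring.valuation (⟨_, hzN⟩ : N) = 1 := by
    have h4 : (⟨_, hsqN⟩ : N) = ⟨_, hzN⟩ * ⟨_, hzN⟩ := rfl
    rw [h4, map_mul] at h2
    exact eq_one_of_sq34 h2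
  refine oG1 E U N hN Q T (fun e => hTL _ (L.algebraMap_mem e)) hT ⟨_, hzN⟩ h3 ?_
  change T (r * (t : U)⁻¹) = -(r * (t : U)⁻¹)
  rw [map_mul, map_inv₀, hTr, hTL _ t.2, neg_mul]

/-- **OG3.** -/
theorem oG3 : StmtOG3 := by
  intro E U _ _ _ _ _ L N hLN hL hN T hTL hTN hTT hfix r h hr hr0 hTr hh b hb
  have hh0 : h ≠ 0 := by
    rintro rfl
    exact pow_ne_zero 2 hr0 hh.symm
  refine ⟨?_, ?_⟩
  · let iA : Algebra L N := (IntermediateField.inclusion hLN).toRingHom.toAlgebra
    have sA : IsScalarTower E L N := IsScalarTower.of_algebraMap_eq fun x => rfl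
    obtain ⟨Q, hQ⟩ := SC.exists_place_over (K := E) (M := L) (N := N) b
    exact ⟨Q, fun x hx hx' => (hQ ⟨x, hx⟩).symm⟩
  -- the decomposition
  have h20 : (2 : U) ≠ 0 := by
    have h1 : algebraMap E U 2 ≠ 0 := (map_ne_zero _).2 two_ne_zero
    rwa [map_ofNat] at h1
  have h2L : (2 : U) ∈ L := by
    have h1 := L.algebraMap_mem (2 : E)
    rwa [map_ofNat] at h1
  have hdec : ∀ z ∈ N, ∃ p q : L, z = (p : U) + (q : U) * r := by
    intro z hz
    have hp : (z + T z) * 2⁻¹ ∈ L := by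
      refine hfix _ (mul_mem (add_mem hz (hTN z hz)) (hLN (inv_mem h2L))) ?_
      rw [map_mul, map_add, hTT z hz, map_inv₀, map_ofNat, add_comm]
    have hq : (z - T z) * (2 * r)⁻¹ ∈ L := by
      refine hfix _ (mul_mem (sub_mem hz (hTN z hz)) (inv_mem (mul_mem (hLN h2L) hr))) ?_
      rw [map_mul, map_sub, hTT z hz, map_inv₀, map_mul, map_ofNat, hTr, mul_neg, inv_neg]
      ring
    refine ⟨⟨_, hp⟩, ⟨_, hq⟩, ?_⟩
    change z = (z + T z) * 2⁻¹ + (z - T z) * (2 * r)⁻¹ * r
    field_simp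
    ring
  have hcrit : ∀ Q : Place E N, OverPl b Q → ∀ (p q : L) (z : N),
      (z : U) = (p : U) + (q : U) * r → (z ∈ Q.ring ↔ p ∈ b.ring ∧ q ^ 2 * h ∈ b.ring) := by
    intro Q hQ p q z hz
    let P : N := ⟨p, hLN p.2⟩
    let R : N := ⟨(q : U) * r, mul_mem (hLN q.2) hr⟩
    have hzPR : z = P + R := Subtype.ext hz
    have hP : P ∈ Q.ring ↔ p ∈ b.ring := (hQ p p.2 (hLN p.2)).symm
    have hR2 : R * R ∈ Q.ring ↔ q ^ 2 * h ∈ b.ring := by
      have e : R * R = ⟨((q ^ 2 * h : L) : U), hLN (q ^ 2 * h).2⟩ := by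
        apply Subtype.ext
        change ((q : U) * r) * ((q : U) * r) = ((q : U)) ^ 2 * (h : U)
        rw [hh]
        ring
      rw [e]
      exact (hQ _ (q ^ 2 * h : L).2 (hLN (q ^ 2 * h).2)).symm
    have hR : R ∈ Q.ring ↔ q ^ 2 * h ∈ b.ring := by
      rw [← hR2]
      refine ⟨fun h => Q.ring.mul_mem _ _ h h, fun h => ?_⟩
      rw [← Q.ring.valuation_le_one_iff] at h ⊢
      rw [map_mul] at h
      exact le_one_of_sq34 h
    rw [← hP, ← hR, hzPR]
    refine ⟨fun hzr => ?_, fun h => Q.ring.add_mem _ _ h.1 h.2⟩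
    by_cases hv : Q.ring.valuation P = Q.ring.valuation R
    · -- then both vanish
      have hq0 : p = 0 ∧ q = 0 := by
        by_cases hp0 : p = 0
        · refine ⟨hp0, ?_⟩
          have h1 : P = 0 := Subtype.ext (by
            change (p : U) = 0
            rw [hp0]
            rfl)
          rw [h1, map_zero] at hv
          have h2 := (Valuation.zero_iff _).1 hv.symm
          have h3 : (q : U) * r = 0 := congrArg Subtype.val h2
          exact Subtype.ext ((mul_eq_zero.1 h3).resolve_right hr0)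
        · exfalso
          by_cases hq0 : q = 0
          · have h1 : R = 0 := Subtype.ext (by
              change (q : U) * r = 0
              rw [hq0]
              exact zero_mul r)
            rw [h1, map_zero] at hv
            have h2 := (Valuation.zero_iff _).1 hv
            have h3 : (p : U) = 0 := congrArg Subtype.val h2
            exact hp0 (Subtype.ext h3)
          · -- the parity of the order
            have hs0 : q ^ 2 * h ≠ 0 := mul_ne_zero (pow_ne_zero 2 hq0) hh0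
            have hp20 : p ^ 2 ≠ 0 := pow_ne_zero 2 hp0
            have hu0 : p ^ 2 * (q ^ 2 * h)⁻¹ ≠ 0 := mul_ne_zero hp20 (inv_ne_zero hs0)
            have hR0 : R ≠ 0 := by
              intro h
              have h3 : (q : U) * r = 0 := congrArg Subtype.val h
              exact hq0 (Subtype.ext ((mul_eq_zero.1 h3).resolve_right hr0))
            have e : (⟨((p ^ 2 * (q ^ 2 * h)⁻¹ : L) : U), hLN (p ^ 2 * (q ^ 2 * h)⁻¹).2⟩ : N) =
                P ^ 2 * (R ^ 2)⁻¹ := by
              apply Subtype.ext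
              change (p : U) ^ 2 * ((q : U) ^ 2 * (h : U))⁻¹ = (p : U) ^ 2 * (((q : U) * r) ^ 2)⁻¹
              rw [hh, mul_pow]
            have hval : Q.ring.valuation (P ^ 2 * (R ^ 2)⁻¹) = 1 := by
              rw [map_mul, map_inv₀, map_pow, map_pow, hv, mul_inv_cancel₀]
              exact pow_ne_zero 2 ((Valuation.ne_zero_iff _).2 hR0)
            rw [val_eq_one34, ← e] at hval
            have h1 : p ^ 2 * (q ^ 2 * h)⁻¹ ∈ b.ring :=
              (hQ _ (p ^ 2 * (q ^ 2 * h)⁻¹ : L).2 _).2 hval.1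
            have h2 : p ^ 2 * (q ^ 2 * h)⁻¹ ∉ b.ring.nonunits := fun hn =>
              hval.2 ((overPl_nonunits34 hQ (p ^ 2 * (q ^ 2 * h)⁻¹ : L).2 _).1 hn)
            have h3 := (ord_nonneg_iff hL b hu0).2 h1
            have h4 : ¬ 0 < ord b.ring (p ^ 2 * (q ^ 2 * h)⁻¹) := fun h =>
              h2 ((ord_pos_iff hL b hu0).1 h)
            rw [ord_mul hL b hp20 (inv_ne_zero hs0), ord_inv hL b hs0, pow_two, pow_two,
              ord_mul hL b hp0 hp0, ord_mul hL b (mul_ne_zero hq0 hq0) hh0,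
              ord_mul hL b hq0 hq0] at h3 h4
            exact hb ⟨ord b.ring p - ord b.ring q, by omega⟩
      have h1 : P = 0 := Subtype.ext (by
        change (p : U) = 0
        rw [hq0.1]
        rfl)
      have h2 : R = 0 := Subtype.ext (by
        change (q : U) * r = 0
        rw [hq0.2]
        exact zero_mul r)
      rw [h1, h2]
      exact ⟨Q.ring.zero_mem, Q.ring.zero_mem⟩
    · rw [← Q.ring.valuation_le_one_iff] at hzr ⊢
      rw [← Q.ring.valuation_le_one_iff]
      rcases lt_or_gt_of_ne hv with h1 | h1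
      · rw [Valuation.map_add_eq_of_lt_right _ h1] at hzr
        exact ⟨h1.le.trans hzr, hzr⟩
      · rw [Valuation.map_add_eq_of_lt_left _ h1] at hzr
        exact ⟨hzr, h1.le.trans hzr⟩
  intro Q Q' hQ hQ'
  refine ⟨?_, ?_⟩
  · apply Place.ext
    ext z
    obtain ⟨p, q, hz⟩ := hdec z z.2
    rw [hcrit Q hQ p q z hz, hcrit Q' hQ' p q z hz]
  · intro x hx hx'
    obtain ⟨p, q, hz⟩ := hdec x hx
    have hz' : T x = (p : U) + ((-q : L) : U) * r := by
      rw [hz, map_add, map_mul, hTL _ p.2, hTL _ q.2, hTr]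
      change _ = (p : U) + (-(q : U)) * r
      ring
    rw [hcrit Q hQ p q ⟨x, hx⟩ hz, hcrit Q hQ p (-q) ⟨T x, hx'⟩ hz', neg_sq]

/-- **OG4.** -/
theorem oG4 : StmtOG4 := by
  intro E U _ _ _ _ _ L N hLN hL hN
  refine ⟨fun Q => ⟨Place.comap hL hN (IntermediateField.inclusion hLN) Q,
    fun x hx hx' => Iff.rfl⟩, ?_⟩
  intro Q T hTE hTN hTN'
  -- `T` maps the constants onto the constants
  have hcst : ∀ e : E, ∃ e' : E, T.symm (algebraMap E U e) = algebraMap E U e' := by
    intro e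
    by_contra hcon
    push Not at hcon
    have huN : ∀ d : E, T.symm (algebraMap E U d) ∈ N := fun d => hTN' _ (N.algebraMap_mem d)
    let u : N := ⟨T.symm (algebraMap E U e), huN e⟩
    have htr : Transcendental E u := by
      intro halg
      have hint : IsIntegral E u := halg.isIntegral
      obtain ⟨c, hc⟩ := minpoly.mem_range_of_degree_eq_one E u
        (IsAlgClosed.degree_eq_one_of_irreducible E (minpoly.irreducible hint))
      exact hcon c (congrArg Subtype.val hc).symm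
    obtain ⟨P, hP⟩ := exists_place hN htr
    have hu0 : u ≠ 0 := fun h => htr ⟨Polynomial.X, Polynomial.X_ne_zero, by simp [h]⟩
    have hpos := (ord_pos_iff hN P hu0).2 hP
    obtain ⟨d, hd⟩ := IsAlgClosed.exists_pow_nat_eq e (n := (ord P.ring u).toNat + 1) (by omega)
    let s : N := ⟨T.symm (algebraMap E U d), huN d⟩
    have hs : s ^ ((ord P.ring u).toNat + 1) = u := by
      apply Subtype.ext
      change (T.symm (algebraMap E U d)) ^ _ = T.symm (algebraMap E U e)
      rw [← hd, map_pow, map_pow]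
    have hs0 : s ≠ 0 := by
      intro h
      rw [h, zero_pow (by omega)] at hs
      exact hu0 hs.symm
    have h1 := ord_pow34 hN P hs0 ((ord P.ring u).toNat + 1)
    rw [hs] at h1
    have h2 : ((ord P.ring u).toNat : ℤ) = ord P.ring u := Int.toNat_of_nonneg hpos.le
    push_cast at h1
    rw [h2] at h1
    set o := ord P.ring u
    have h3 : 0 < ord P.ring s := by
      by_contra hcon
      push Not at hcon
      nlinarith
    nlinarith
  let τ : N →+* N :=
    { toFun := fun z => ⟨T.symm z, hTN' z z.2⟩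
      map_one' := Subtype.ext (map_one _)
      map_mul' := fun a b => Subtype.ext (map_mul _ _ _)
      map_zero' := Subtype.ext (map_zero _)
      map_add' := fun a b => Subtype.ext (map_add _ _ _) }
  let Q' : Place E N :=
    { ring := Q.ring.comap τ
      algebraMap_mem := by
        intro e
        rw [ValuationSubring.mem_comap]
        obtain ⟨e', he'⟩ := hcst e
        have h1 : τ (algebraMap E N e) = algebraMap E N e' := Subtype.ext he'
        rw [h1]
        exact Q.algebraMap_mem e'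
      ne_top := by
        intro h
        apply Q.ne_top
        rw [eq_top_iff]
        intro z _
        have h1 : (⟨T z, hTN z z.2⟩ : N) ∈ Q.ring.comap τ := by
          rw [h]
          trivial
        rw [ValuationSubring.mem_comap] at h1
        have h2 : τ ⟨T z, hTN z z.2⟩ = z := Subtype.ext (T.symm_apply_apply _)
        rwa [h2] at h1 }
  refine ⟨Q', fun x hx hx' => ?_⟩
  have h2 : τ ⟨T x, hx'⟩ = ⟨x, hx⟩ := Subtype.ext (T.symm_apply_apply _)
  change _ ↔ (⟨T x, hx'⟩ : N) ∈ Q.ring.comap τ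
  rw [ValuationSubring.mem_comap, h2]

end

end Pool.Agent.TOW
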